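import Pool.Agent.Helper79.KW.Base
import Pool.Agent.Helper67.KW.MN1
import Pool.Agent.Helper51.KW.MN2
import Pool.Agent.Helper59.KW.TA2
import Pool.Agent.Helper1.KW.TC
import Pool.Agent.Helper97.KW.SE1
import Pool.Agent.Helper98.KW.SE2
import Pool.Agent.Helper54.KW.SE3

/-! # Piece PA: the estimate on patches -/

set_option linter.unusedSectionVars false

open CategoryTheory Topology
open scoped ENNReal

namespace Pool.Agent.KW

universe u v

section PA
variable {X : Type u} [Groupoid.{u} X] [TopologicalSpace X] [TopologicalSpace (Arr X)]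

namespace PA

theorem arr_injective {x : X} : Function.Injective (arr : Fibre x → Arr X) := by
  rintro ⟨y, g⟩ ⟨y', g'⟩ h
  simp only [arr, Arr.mk.injEq, true_and] at h
  obtain ⟨rfl, h⟩ := h
  rw [eq_of_heq h]

/-- at most one arrow with source `y` in the support of a bump function -/
theorem exists_center (θ : Arr X → ℝ) (hθ : IsBump θ) (y : X) :
    ∃ c : Fibre y, ∀ g : Fibre y, θ (arr g) ≠ 0 → g = c := by
  obtain ⟨U, -, hU, hs, -⟩ := hθ.bis
  by_cases h : ∃ c : Fibre y, θ (arr c) ≠ 0
  · obtain ⟨c, hc⟩ := h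
    refine ⟨c, fun g hg => arr_injective (hs ?_ ?_ rfl)⟩
    · exact hU (subset_tsupport _ hg)
    · exact hU (subset_tsupport _ hc)
  · push Not at h
    exact ⟨⟨y, 𝟙 y⟩, fun g hg => absurd (h g) hg⟩

/-- the value of `secMat` -/
theorem secMat_eq {A : GAlg.{u, v} X} {r : ℕ} (θ : Fin r → Arr X → ℝ) (f : MatFam A) (y : X)
    (c : Fin r → Fibre y) (hc : ∀ i, ∀ g : Fibre y, θ i (arr g) ≠ 0 → g = c i) (i j : Fin r) :
    secMat θ f y i j = ((θ i (arr (c i)) * θ j (arr (c j)) : ℝ) : ℂ) • f y (c i) (c j) := by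
  rw [secMat, finsum_eq_single _ (c i), finsum_eq_single _ (c j)]
  · intro g' hg'
    have : θ j (arr g') = 0 := by
      by_contra h
      exact hg' (hc j g' h)
    rw [this, mul_zero, Complex.ofReal_zero, zero_smul]
  · intro g hg
    have : θ i (arr g) = 0 := by
      by_contra h
      exact hg (hc i g h)
    rw [this]
    simp

/-- transport of a family along a bump function -/
theorem transport_eq (I : GAlg.{u, v} X) (θ' : Arr X → ℝ) (hθ' : IsBump θ') (a : ∀ x, I.fib x)
    {y : X} (c : Fibre y) (hc : θ' (arr c) = 1) :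
    ∑ᶠ g : Σ x, (x ⟶ c.1), ((θ' ⟨g.1, c.1, g.2⟩ : ℝ) : ℂ) • I.act g.2 (a g.1) =
      I.act c.2 (a y) := by
  rw [finsum_eq_single _ (⟨y, c.2⟩ : Σ x, (x ⟶ c.1))]
  · change ((θ' (arr c) : ℝ) : ℂ) • _ = _
    rw [hc, Complex.ofReal_one, one_smul]
  · rintro ⟨x, g⟩ hg
    have h0 : θ' ⟨x, c.1, g⟩ = 0 := by
      by_contra h
      apply hg
      obtain ⟨U, -, hU, -, ht⟩ := hθ'.bis
      have h1 : (⟨x, c.1, g⟩ : Arr X) = arr c := by
        refine ht (hU (subset_tsupport _ h)) (hU (subset_tsupport _ ?_)) rfl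
        rw [Function.mem_support, hc]
        exact one_ne_zero
      simp only [arr, Arr.mk.injEq] at h1
      obtain ⟨rfl, -, h2⟩ := h1
      rw [eq_of_heq h2]
    simp only [h0, Complex.ofReal_zero, zero_smul]

theorem isCc_ofReal {θ : Arr X → ℝ} (hθ : IsBump θ) : IsCc (fun g => ((θ g : ℝ) : ℂ)) :=
  ⟨Complex.continuous_ofReal.comp hθ.cont, hθ.cpt.comp_left Complex.ofReal_zero⟩

end PA

theorem exists_patch_bound [EtaleGroupoid X] {I A B : GAlg.{u, v} X} (ι : GHom I A)
    (π : GHom A B) (h : GShortExact ι π) (f : MatFam A) (hf : f ∈ algCrossed A) (ρ : ℝ)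
    (hρ : 0 < ρ) (hπ : FamLE (π.onCrossed f) ρ) (L : Set (Arr X)) (hL : IsCompact L)
    (δ : ℝ) (hδ : 0 < δ) :
    ∃ b ∈ I.sec, (∀ x, ‖b x‖ ≤ 1) ∧ ∀ (x : X) (F : Finset (Fibre x)), (∀ g ∈ F, arr g ∈ L) →
      matNorm (fun g k : F => f x g k -
        f x g k * ι.app x (I.act (Groupoid.inv k.1.2) (star (b k.1.1) * b k.1.1))) ≤ ρ + δ := by
  classical
  obtain ⟨r, θ, hθ, hθ1, hθL⟩ := exists_quad_partition L hL
  -- the matrix of sections
  have hM : ∀ i j, (fun y => secMat θ f y i j) ∈ A.sec := fun i j => secMat_mem A θ hθ f hf i j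
  choose c hc using fun (y : X) (i : Fin r) => PA.exists_center (θ i) (hθ i) y
  have hMeq : ∀ y i j, secMat θ f y i j =
      ((θ i (arr (c y i)) * θ j (arr (c y j)) : ℝ) : ℂ) • f y (c y i) (c y j) :=
    fun y i j => PA.secMat_eq θ f y (c y) (hc y) i j
  have hπM : ∀ y, matNorm (fun i j => π.app y (secMat θ f y i j)) ≤ ρ := by
    intro y
    set F : Finset (Fibre y) := Finset.univ.image (c y) with hF
    have h1 := matNorm_conj_le (m := Fin r) (n := F)
      (fun i g => θ i (arr g.1)) (fun i k l hk hl => Subtype.ext ((hc y i k hk).trans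
        (hc y i l hl).symm)) (fun k => hθ1 (arr k.1))
      (fun g k : F => π.onCrossed f y g k)
    refine le_trans (le_of_eq ?_) (h1.trans (hπ y F))
    congr 1
    ext i j
    have hi : c y i ∈ F := Finset.mem_image_of_mem _ (Finset.mem_univ i)
    have hj : c y j ∈ F := Finset.mem_image_of_mem _ (Finset.mem_univ j)
    rw [Finset.sum_eq_single (⟨c y i, hi⟩ : F), Finset.sum_eq_single (⟨c y j, hj⟩ : F)]
    · rw [hMeq, map_smul]
      rfl
    · intro k _ hk
      have : θ j (arr k.1) = 0 := by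
        by_contra hne
        exact hk (Subtype.ext (hc y j k.1 hne))
      rw [this]
      simp
    · intro hne
      exact absurd (Finset.mem_univ _) hne
    · intro k _ hk
      have : θ i (arr k.1) = 0 := by
        by_contra hne
        exact hk (Subtype.ext (hc y i k.1 hne))
      rw [this]
      simp
    · intro hne
      exact absurd (Finset.mem_univ _) hne
  obtain ⟨e, he, heρ, he0⟩ := exists_lift ι π h (fun y i j => secMat θ f y i j) hM ρ hρ hπM
  -- the larger bump functions
  have hθ' : ∀ j, ∃ θ' : Arr X → ℝ, IsBump θ' ∧ ∀ g, θ j g ≠ 0 → θ' g = 1 := by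
    intro j
    obtain ⟨U, hUo, hU, hs, ht⟩ := (hθ j).bis
    obtain ⟨θ', h1, h2, -⟩ := exists_bump_eq_one (tsupport (θ j)) (hθ j).cpt U hUo hU hs ht
    exact ⟨θ', h1, fun g hg => h2 g (subset_tsupport _ hg)⟩
  choose θ' hθ'b hθ'1 using hθ'
  -- the transported sections
  set et : Fin r × Fin r → ∀ z, I.fib z := fun p z =>
    ∑ᶠ g : Σ x, (x ⟶ z), ((θ' p.2 ⟨g.1, z, g.2⟩ : ℝ) : ℂ) • I.act g.2 (e g.1 p.1 p.2) with het
  have hets : ∀ p, et p ∈ I.sec := fun p =>
    I.act_cont (fun g => ((θ' p.2 g : ℝ) : ℂ)) (PA.isCc_ofReal (hθ'b p.2)) _ (he p.1 p.2)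
  set δ' : ℝ := δ / (r * r + 1) with hδ'
  have hδ'0 : 0 < δ' := by positivity
  obtain ⟨b, hb, hb1, hbe⟩ := exists_approx_unit I
    (fun k : Fin (Fintype.card (Fin r × Fin r)) => et ((Fintype.equivFin _).symm k))
    (fun k => hets _) δ' hδ'0
  have hbe' : ∀ p z, ‖et p z - et p z * (star (b z) * b z)‖ ≤ δ' := by
    intro p z
    have := hbe (Fintype.equivFin _ p) z
    simpa using this
  refine ⟨b, hb, hb1, fun x F hF => ?_⟩
  -- the elements `d j`
  set β : Fin r → A.fib x := fun j => ι.app x (I.act (Groupoid.inv (c x j).2) (b (c x j).1))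
    with hβ
  have hβ1 : ∀ j, ‖β j‖ ≤ 1 := fun j =>
    (NonUnitalStarAlgHom.norm_apply_le _ _).trans
      ((NonUnitalStarAlgHom.norm_apply_le _ _).trans (hb1 _))
  have hββ : ∀ j, star (β j) * β j = ι.app x (I.act (Groupoid.inv (c x j).2)
      (star (b (c x j).1) * b (c x j).1)) := by
    intro j
    rw [map_mul, map_star, map_mul, map_star]
  set P : Fin r → Fin r → A.fib x := fun i j => secMat θ f x i j -
    secMat θ f x i j * (star (β j) * β j) with hP
  -- small error
  have herr : ∀ i j, ‖ι.app x (e x i j) - ι.app x (e x i j) * (star (β j) * β j)‖ ≤ δ' := by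
    intro i j
    by_cases hj : θ j (arr (c x j)) = 0
    · have h1 : e x i j = 0 := by
        refine he0 x j (fun i' => ?_) i
        rw [hMeq, hj]
        simp
      rw [h1, map_zero, zero_mul, sub_zero, norm_zero]
      exact hδ'0.le
    · have h1 : et (i, j) (c x j).1 = I.act (c x j).2 (e x i j) :=
        PA.transport_eq I (θ' j) (hθ'b j) (fun z => e z i j) (c x j) (hθ'1 j _ hj)
      have h2 := hbe' (i, j) (c x j).1
      have h3 : ι.app x (e x i j) - ι.app x (e x i j) * (star (β j) * β j) =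
          ι.app x (I.act (Groupoid.inv (c x j).2) (et (i, j) (c x j).1 -
            et (i, j) (c x j).1 * (star (b (c x j).1) * b (c x j).1))) := by
        have h4 : I.act (Groupoid.inv (c x j).2) (I.act (c x j).2 (e x i j)) = e x i j := by
          rw [← I.act_comp, Groupoid.comp_inv, I.act_id]
        have h5 : ∀ s, I.act (Groupoid.inv (c x j).2) (I.act (c x j).2 (e x i j) -
            I.act (c x j).2 (e x i j) * s) = e x i j - e x i j *
              I.act (Groupoid.inv (c x j).2) s := by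
          intro s
          rw [map_sub, map_mul, h4]
        rw [hββ, h1, h5, map_sub, map_mul (ι.app x) (e x i j)]
      rw [h3]
      exact (NonUnitalStarAlgHom.norm_apply_le _ _).trans
        ((NonUnitalStarAlgHom.norm_apply_le _ _).trans h2)
  have hPn : matNorm P ≤ ρ + δ := by
    have h1 : P = fun i j => ((secMat θ f x i j - ι.app x (e x i j)) -
        (secMat θ f x i j - ι.app x (e x i j)) * (star (β j) * β j)) +
        (ι.app x (e x i j) - ι.app x (e x i j) * (star (β j) * β j)) := by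
      ext i j
      simp only [hP, sub_mul]
      abel
    rw [h1]
    refine (matNorm_add_le _ _).trans (add_le_add ?_ ?_)
    · exact (matNorm_sub_mul_le (fun i j => secMat θ f x i j - ι.app x (e x i j)) β hβ1).trans
        (heρ x)
    · refine (matNorm_le_sum _).trans ?_
      calc ∑ i : Fin r, ∑ j : Fin r,
            ‖ι.app x (e x i j) - ι.app x (e x i j) * (star (β j) * β j)‖
          ≤ ∑ _i : Fin r, ∑ _j : Fin r, δ' :=
            Finset.sum_le_sum fun i _ => Finset.sum_le_sum fun j _ => herr i j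
        _ = r * r * δ' := by
            simp only [Finset.sum_const, Finset.card_univ, Fintype.card_fin, nsmul_eq_mul]
            ring
        _ ≤ δ := by
            rw [hδ', mul_div_assoc', div_le_iff₀ (by positivity)]
            nlinarith
  -- the patch
  have h2 := matNorm_conj_le' (m := Fin r) (n := F)
      (fun i g => θ i (arr g.1)) (fun i k l hk hl => Subtype.ext ((hc x i k hk).trans
        (hc x i l hl).symm)) (fun k => hθ1 (arr k.1)) P
  refine le_trans (le_of_eq ?_) (h2.trans hPn)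
  congr 1
  ext g k
  have h3 : ∀ i j : Fin r, ((θ i (arr g.1) * θ j (arr k.1) : ℝ) : ℂ) • P i j =
      ((θ i (arr g.1) ^ 2 * θ j (arr k.1) ^ 2 : ℝ) : ℂ) • (f x g k -
        f x g k * ι.app x (I.act (Groupoid.inv k.1.2) (star (b k.1.1) * b k.1.1))) := by
    intro i j
    by_cases hi : θ i (arr g.1) = 0
    · rw [hi]; simp
    by_cases hj : θ j (arr k.1) = 0
    · rw [hj]; simp
    have hgi := hc x i g.1 hi
    have hkj := hc x j k.1 hj
    simp only [hP]
    rw [hββ, hMeq, ← hgi, ← hkj, smul_mul_assoc, ← smul_sub, smul_smul]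
    congr 1
    push_cast
    ring
  rw [Finset.sum_congr rfl fun i _ => Finset.sum_congr rfl fun j _ => h3 i j]
  simp only [← Finset.sum_smul, ← Complex.ofReal_sum, ← Finset.mul_sum, ← Finset.sum_mul]
  rw [hθL _ (hF g.1 g.2), hθL _ (hF k.1 k.2)]
  simp

end PA

end Pool.Agent.KW
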